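import Pool.Agent.Helper38.SZ.Dat0

/-! The arcs of an equisingular family of plane curves, without transversality. -/

namespace Pool.Agent.Helper38.SZ

open MvPowerSeries Pool.Agent.Helper38.EQ Pool.Agent.Helper38.GP Pool.Agent.Helper38.SB
open Pool.Agent.Helper85.SB hiding ram_injective rot_ram
open Pool.Agent.Helper85.SZ

variable {d : ℕ} {K : Type} [Field K]

namespace Dat0

variable {g : MvPowerSeries (Fin (d + 2)) K} {I : Ideal (MvPowerSeries (Fin (d + 2)) K)}
  (D : Dat0 g I)

theorem ρ_injective : Function.Injective D.ρ := by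
  intro i j h
  by_contra hij
  obtain ⟨e, he⟩ := D.hd i j hij
  rw [h, sub_self] at he
  exact pow_ne_zero e PowerSeries.X_ne_zero ((associated_zero_iff_eq_zero _).1 he.symm)

theorem const_ρ (i j : Fin D.P.natDegree) :
    PowerSeries.constantCoeff (D.ρ i) = PowerSeries.constantCoeff (D.ρ j) := by
  by_cases hij : i = j
  · rw [hij]
  · obtain ⟨e, he⟩ := D.hd i j hij
    have he0 : e ≠ 0 := by
      rintro rfl
      rw [pow_zero, associated_one_iff_isUnit] at he
      exact (IsLocalRing.mem_maximalIdeal _).1 (Ideal.sub_mem _ (D.ρm i) (D.ρm j)) he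
    have h1 : (PowerSeries.X : WS d K) ∣ D.ρ i - D.ρ j :=
      (dvd_pow_self _ he0).trans he.symm.dvd
    rw [PowerSeries.X_dvd_iff, map_sub, sub_eq_zero] at h1
    exact h1

theorem X_dvd_y (l : Fin D.P.natDegree) : PowerSeries.X ∣ D.G l D.y := by
  obtain ⟨q, hq⟩ := D.eval_dvd
  have h4 : ((D.P.map (D.β : MvPowerSeries (Fin (d + 1)) K →+* WS d K)).map (ram D.hM)).eval
      (ram D.hM (D.β D.τ)) =
      ram D.hM ((D.P.map (D.β : MvPowerSeries (Fin (d + 1)) K →+* WS d K)).eval (D.β D.τ)) :=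
    Polynomial.eval_map_apply _ _
  rw [D.hρ, eval_prod_X_sub_C, hq, map_mul, ram_X] at h4
  have h5 := congrArg PowerSeries.constantCoeff h4
  rw [map_prod, map_mul, map_pow, PowerSeries.constantCoeff_X, zero_pow D.hM, zero_mul,
    Finset.prod_eq_zero_iff] at h5
  obtain ⟨i, -, hi⟩ := h5
  rw [G_y, PowerSeries.X_dvd_iff, map_sub, D.const_ρ l i, ← neg_eq_zero, neg_sub, ← map_sub]
  exact hi

theorem exists_rot {ζ : K} (hζ : ζ ^ D.M = 1) (l : Fin D.P.natDegree) :
    ∃ l', (rotK ζ).comp (D.G l) = D.G l' := by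
  obtain ⟨l', hl'⟩ := exists_conj D.hM D.hρ hζ l
  refine ⟨l', AlgHom.ext fun f => ?_⟩
  have h1 := Pool.Agent.Helper80.SP.hom_sub_mem' D.p ((rotK ζ).comp (D.G l)) (D.G l') ⊥ (by
      rw [Ideal.mem_bot, sub_eq_zero]
      change rot ζ (D.G l (D.p.σ.symm PowerSeries.X)) = _
      rw [G_X, G_X, hl']) (fun i => by
      rw [Ideal.mem_bot, sub_eq_zero]
      change rot ζ (D.G l (D.p.σ.symm (PowerSeries.C (X i)))) = _
      rw [G_C, G_C, rot_ram D.hM hζ]) f
  rwa [Ideal.mem_bot, sub_eq_zero] at h1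

/-- A series which vanishes on all branches is a multiple of `g`. -/
theorem dvd_of_vanish {φ : MvPowerSeries (Fin (d + 2)) K} (hφ : ∀ l, D.G l φ = 0) : g ∣ φ := by
  classical
  have hcomp := isAdicComplete_mvPowerSeries (d + 1) K
  have hP := D.hW.isDistinguishedAt
  have hW : (D.P : PowerSeries (MvPowerSeries (Fin (d + 1)) K)).IsWeierstrassDivisorAt
      (IsLocalRing.maximalIdeal (MvPowerSeries (Fin (d + 1)) K)) :=
    hP.isWeierstrassDivisorAt (Ideal.IsPrime.ne_top')
  have hord : (((D.P : PowerSeries (MvPowerSeries (Fin (d + 1)) K)).map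
      (Ideal.Quotient.mk (IsLocalRing.maximalIdeal
        (MvPowerSeries (Fin (d + 1)) K)))).order.toNat : WithBot ℕ) = D.P.degree := by
    have h1 : (D.P : PowerSeries (MvPowerSeries (Fin (d + 1)) K)).map
        (Ideal.Quotient.mk (IsLocalRing.maximalIdeal (MvPowerSeries (Fin (d + 1)) K))) =
        PowerSeries.X ^ D.P.natDegree := by
      rw [← Polynomial.polynomial_map_coe, hP.map_eq_X_pow, Polynomial.coe_pow, Polynomial.coe_X]
    rw [h1, PowerSeries.order_X_pow, Polynomial.degree_eq_natDegree hP.monic.ne_zero]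
    rfl
  have hg : ∀ l, D.G l (D.p.σ.symm (D.P : PowerSeries (MvPowerSeries (Fin (d + 1)) K))) = 0 := by
    intro l
    rw [G_poly, D.hρ, eval_prod_X_sub_C]
    exact Finset.prod_eq_zero (Finset.mem_univ l) (sub_self _)
  obtain ⟨hr1, hr2⟩ := hW.isWeierstrassDivisionAt_div_mod (D.p.σ φ)
  set q := hW.div (D.p.σ φ)
  set r := hW.mod (D.p.σ φ)
  have hrdeg : r.degree < D.P.degree := by
    rw [← hord]
    exact hr1
  have hr0 : r = 0 := by
    by_contra hne
    have h1 : r.natDegree < D.P.natDegree := Polynomial.natDegree_lt_natDegree hne hrdeg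
    have h2 : ∀ l, ((r.map (D.β : MvPowerSeries (Fin (d + 1)) K →+* WS d K)).map
        (ram D.hM)).eval (D.ρ l) = 0 := by
      intro l
      rw [← G_poly]
      have h3 : φ = D.p.σ.symm (D.P : PowerSeries (MvPowerSeries (Fin (d + 1)) K)) *
          D.p.σ.symm q + D.p.σ.symm (r : PowerSeries (MvPowerSeries (Fin (d + 1)) K)) := by
        rw [← map_mul, ← map_add, ← hr2, AlgEquiv.symm_apply_apply]
      have h4 := hφ l
      rw [h3, map_add, map_mul, hg l, zero_mul, zero_add] at h4
      exact h4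
    have h5 := Polynomial.eq_zero_of_natDegree_lt_card_of_eval_eq_zero _ D.ρ_injective h2 (by
      rw [Fintype.card_fin]
      exact lt_of_le_of_lt (Polynomial.natDegree_map_le.trans Polynomial.natDegree_map_le) h1)
    rw [Polynomial.map_eq_zero_iff (Pool.Agent.Helper38.SB.ram_injective D.hM),
      Polynomial.map_eq_zero_iff D.β.injective] at h5
    exact hne h5
  rw [hr0, Polynomial.coe_zero, add_zero] at hr2
  have h6 : D.p.σ g ∣ D.p.σ φ := by
    rw [hr2, D.hW.eq_mul]
    exact mul_dvd_mul_left _ (D.hW.isUnit.dvd)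
  have h7 := map_dvd D.p.σ.symm h6
  rwa [AlgEquiv.symm_apply_apply, AlgEquiv.symm_apply_apply] at h7

end Dat0

/-- (Z1) The arcs of an equisingular family of plane curves. -/
theorem exists_arcs0 {d : ℕ} {K : Type} [Field K] [IsAlgClosed K] [CharZero K] {𝒞 : ProjClass K}
    {g : MvPowerSeries (Fin (d + 2)) K} {I : Ideal (MvPowerSeries (Fin (d + 2)) K)}
    (h : Equi 𝒞 1 (d + 2) g I) : Nonempty (Arcs0 g I) := by
  obtain ⟨D⟩ := exists_dat0 h
  exact ⟨{
    N := D.P.natDegree
    M := D.M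
    hM := D.hM
    pos := lt_of_lt_of_le (by norm_num) D.two
    x := D.x
    y := D.y
    t := D.t
    hI := D.hI'
    gI := D.gI
    li := D.li'
    G := D.G
    Gx := D.G_x
    Gt := D.G_t
    diff := D.G_diff
    conj := fun ζ hζ l => D.exists_rot hζ l
    Xy := D.X_dvd_y
    Gg := D.G_g
    compl := fun _ hφ => D.dvd_of_vanish hφ }⟩

end Pool.Agent.Helper38.SZ
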