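import Pool.Agent.Helper38.SB.Li
import Pool.Agent.Helper85.SZ.Defs

/-! The data of an equisingular family of plane curves, without transversality. -/

namespace Pool.Agent.Helper38.SZ

open MvPowerSeries Pool.Agent.Helper38.EQ Pool.Agent.Helper38.GP Pool.Agent.Helper85.SB
open Pool.Agent.Helper38.SB hiding exists_dat

/-- The data of an equisingular family of plane curves, in coordinates. -/
structure Dat0 {d : ℕ} {K : Type} [Field K] (g : MvPowerSeries (Fin (d + 2)) K)
    (I : Ideal (MvPowerSeries (Fin (d + 2)) K)) where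
  /-- the coordinates -/
  p : Proj (d + 1) K
  /-- the coordinates of the base -/
  β : MvPowerSeries (Fin (d + 1)) K ≃ₐ[K] WS d K
  /-- the Weierstrass polynomial -/
  P : Polynomial (MvPowerSeries (Fin (d + 1)) K)
  /-- the unit -/
  U : PowerSeries (MvPowerSeries (Fin (d + 1)) K)
  hW : (p.σ g).IsWeierstrassFactorization P U
  /-- the ramification -/
  M : ℕ
  hM : M ≠ 0
  /-- the roots -/
  ρ : Fin P.natDegree → WS d K
  hρ : (P.map (β : MvPowerSeries (Fin (d + 1)) K →+* WS d K)).map (ram hM) =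
    ∏ i, (Polynomial.X - Polynomial.C (ρ i))
  ρm : ∀ i, ρ i ∈ IsLocalRing.maximalIdeal (WS d K)
  hd : ∀ i j, i ≠ j → ∃ e, Associated (ρ i - ρ j) (PowerSeries.X ^ e)
  /-- the axis -/
  τ : MvPowerSeries (Fin (d + 1)) K
  τm : τ ∈ IsLocalRing.maximalIdeal (MvPowerSeries (Fin (d + 1)) K)
  hI : Ideal.map p.σ I = Ideal.span {PowerSeries.C (β.symm PowerSeries.X),
    PowerSeries.X - PowerSeries.C τ}
  gI : g ∈ I
  two : 2 ≤ P.natDegree

theorem exists_dat0 {d : ℕ} {K : Type} [Field K] [IsAlgClosed K] [CharZero K] {𝒞 : ProjClass K}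
    {g : MvPowerSeries (Fin (d + 2)) K} {I : Ideal (MvPowerSeries (Fin (d + 2)) K)}
    (h : Equi 𝒞 1 (d + 2) g I) : Nonempty (Dat0 g I) := by
  classical
  obtain ⟨hgI, z, -, hpar, hperm, g₁, I₁, ⟨σ, P, hσ, ⟨U, hU⟩, hred, hI₁⟩, hg1, hg2, hI₁'⟩ := h
  let p : Proj (d + 1) K := ⟨σ.equiv⟩
  have hσ' : ∀ i, p.σ (z i) = PowerSeries.C (X i) := hσ
  have hW : (p.σ g).IsWeierstrassFactorization P U := hU
  obtain ⟨τ, hτ⟩ := exists_coord hg1 hg2
  let β : MvPowerSeries (Fin (d + 1)) K ≃ₐ[K] WS d K := τ.symm.trans (finSuccEquiv K d)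
  have hβ : β g₁ = PowerSeries.X := by
    change finSuccEquiv K d (τ.symm g₁) = _
    rw [← hτ, AlgEquiv.symm_apply_apply, finSuccEquiv_X_zero]
  have hβ' : β.symm PowerSeries.X = g₁ := by
    rw [← hβ, AlgEquiv.symm_apply_apply]
  have hred' : Ideal.span {g₁} = (Ideal.span {P.discr}).radical := hred
  -- the discriminant divides a power of `g₁`
  obtain ⟨k, hk⟩ : ∃ k, P.discr ∣ g₁ ^ k := by
    have h1 : g₁ ∈ (Ideal.span {P.discr}).radical := by
      rw [← hred']
      exact Ideal.mem_span_singleton_self g₁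
    obtain ⟨k, hk⟩ := h1
    exact ⟨k, Ideal.mem_span_singleton.1 hk⟩
  have hnu : ¬ IsUnit P.discr := by
    intro hu
    have h1 : Ideal.span {P.discr} = ⊤ := Ideal.span_singleton_eq_top.2 hu
    rw [h1, Ideal.radical_top, Ideal.span_singleton_eq_top] at hred'
    exact hg1 hred'
  have htwo : 2 ≤ P.natDegree := by
    by_contra hcon
    push Not at hcon
    apply hnu
    have hm := hW.isDistinguishedAt.monic
    interval_cases hN : P.natDegree
    · rw [hm.natDegree_eq_zero.1 hN]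
      have h1 : (1 : Polynomial (MvPowerSeries (Fin (d + 1)) K)) = Polynomial.C 1 := rfl
      rw [h1, Polynomial.discr_C]
      exact isUnit_one
    · rw [Polynomial.discr_of_degree_eq_one]
      · exact isUnit_one
      · rw [Polynomial.degree_eq_natDegree hm.ne_zero, hN]
        rfl
  have hloc : ∀ x ∈ IsLocalRing.maximalIdeal (MvPowerSeries (Fin (d + 1)) K),
      (β : MvPowerSeries (Fin (d + 1)) K →ₐ[K] WS d K) x ∈
        IsLocalRing.maximalIdeal (WS d K) := by
    intro x hx hu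
    apply hx
    have h1 := hu.map β.symm
    change IsUnit (β.symm (β x)) at h1
    rwa [AlgEquiv.symm_apply_apply] at h1
  obtain ⟨M, hM, ρ, hρ, hρm, hd⟩ := exists_roots hW.isDistinguishedAt
    (β : MvPowerSeries (Fin (d + 1)) K →ₐ[K] WS d K) hloc (k := k) (by
      have h1 := map_dvd (β : MvPowerSeries (Fin (d + 1)) K →ₐ[K] WS d K) hk
      rw [map_pow] at h1
      change _ ∣ (β g₁) ^ k at h1
      rwa [hβ] at h1)
  -- the axis
  have hItop : I ≠ ⊤ := by
    intro hI
    have h1 : I₁ = ⊤ := by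
      rw [hI₁, Coord.image, hI, Ideal.map_top, Ideal.comap_top]
    rw [hI₁', Ideal.span_singleton_eq_top] at h1
    exact hg1 h1
  obtain ⟨τ₀, hτ₀, hτI⟩ := exists_graph p hpar.1 hσ' hItop hperm
  have hI : Ideal.map p.σ I = Ideal.span {PowerSeries.C (β.symm PowerSeries.X),
      PowerSeries.X - PowerSeries.C τ₀} := by
    rw [hβ']
    have hcom : ∀ φ₀, PowerSeries.C φ₀ ∈ Ideal.map p.σ I ↔ φ₀ ∈ Ideal.span {g₁} := by
      intro φ₀
      rw [← hI₁', hI₁]
      rfl
    apply le_antisymm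
    · intro φ hφ
      obtain ⟨ε, -, -, hε⟩ := Pool.Agent.Helper38.ED.exists_eval τ₀ hτ₀
      obtain ⟨q, hq⟩ := hε φ
      have h1 : PowerSeries.C (ε φ) ∈ Ideal.map p.σ I := by
        have h2 : PowerSeries.C (ε φ) = φ - (PowerSeries.X - PowerSeries.C τ₀) * q := by
          rw [eq_sub_iff_add_eq, ← hq]
        rw [h2]
        exact Ideal.sub_mem _ hφ (Ideal.mul_mem_right _ _ hτI)
      rw [hcom, Ideal.mem_span_singleton] at h1
      obtain ⟨c, hc⟩ := h1
      rw [Ideal.mem_span_pair]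
      refine ⟨PowerSeries.C c, q, ?_⟩
      rw [hq, hc, map_mul]
      ring
    · rw [Ideal.span_le]
      intro φ hφ
      rcases hφ with rfl | hφ
      · exact (hcom g₁).2 (Ideal.mem_span_singleton_self g₁)
      · rw [Set.mem_singleton_iff.1 hφ]
        exact hτI
  refine ⟨⟨p, β, P, U, hW, M, hM, ρ, ?_, hρm, hd,
    τ₀, hτ₀, hI, hgI, htwo⟩⟩
  rw [Polynomial.map_map]
  exact hρ

variable {d : ℕ} {K : Type} [Field K]

namespace Dat0

variable {g : MvPowerSeries (Fin (d + 2)) K} {I : Ideal (MvPowerSeries (Fin (d + 2)) K)}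
  (D : Dat0 g I)

/-- the coordinate `x` -/
noncomputable def x : MvPowerSeries (Fin (d + 2)) K :=
  D.p.σ.symm (PowerSeries.C (D.β.symm PowerSeries.X))

/-- the coordinate `y` -/
noncomputable def y : MvPowerSeries (Fin (d + 2)) K :=
  D.p.σ.symm (PowerSeries.X - PowerSeries.C D.τ)

/-- the coordinates `t` -/
noncomputable def t (j : Fin d) : MvPowerSeries (Fin (d + 2)) K :=
  D.p.σ.symm (PowerSeries.C (D.β.symm (PowerSeries.C (X j))))

theorem exists_arc (l : Fin D.P.natDegree) :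
    ∃ G : MvPowerSeries (Fin (d + 2)) K →ₐ[K] WS d K,
      (∀ b, G (D.p.σ.symm (PowerSeries.C b)) = ram D.hM (D.β b)) ∧
        G (D.p.σ.symm PowerSeries.X) = D.ρ l := by
  obtain ⟨Γ, h1, h2⟩ := exists_extend
    ((ramK D.hM).comp (D.β : MvPowerSeries (Fin (d + 1)) K →ₐ[K] WS d K)) (D.ρ l) (D.ρm l)
  refine ⟨Γ.comp (D.p.σ : MvPowerSeries (Fin (d + 2)) K →ₐ[K]
    PowerSeries (MvPowerSeries (Fin (d + 1)) K)), fun b => ?_, ?_⟩
  · change Γ (D.p.σ (D.p.σ.symm (PowerSeries.C b))) = _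
    rw [AlgEquiv.apply_symm_apply, h1]
    rfl
  · change Γ (D.p.σ (D.p.σ.symm PowerSeries.X)) = _
    rw [AlgEquiv.apply_symm_apply, h2]

/-- the arcs -/
noncomputable def G (l : Fin D.P.natDegree) : MvPowerSeries (Fin (d + 2)) K →ₐ[K] WS d K :=
  (D.exists_arc l).choose

theorem G_C (l : Fin D.P.natDegree) (b : MvPowerSeries (Fin (d + 1)) K) :
    D.G l (D.p.σ.symm (PowerSeries.C b)) = ram D.hM (D.β b) := (D.exists_arc l).choose_spec.1 b

theorem G_X (l : Fin D.P.natDegree) : D.G l (D.p.σ.symm PowerSeries.X) = D.ρ l :=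
  (D.exists_arc l).choose_spec.2

theorem G_x (l : Fin D.P.natDegree) : D.G l D.x = PowerSeries.X ^ D.M := by
  rw [x, G_C, AlgEquiv.apply_symm_apply, ram_X]

theorem G_y (l : Fin D.P.natDegree) : D.G l D.y = D.ρ l - ram D.hM (D.β D.τ) := by
  rw [y, map_sub, map_sub, G_C, G_X]

theorem G_t (l : Fin D.P.natDegree) (j : Fin d) : D.G l (D.t j) = PowerSeries.C (X j) := by
  rw [t, G_C, AlgEquiv.apply_symm_apply, ram_C]

theorem G_diff (l l' : Fin D.P.natDegree) (h : l ≠ l') :
    ∃ k, Associated (D.G l D.y - D.G l' D.y) (PowerSeries.X ^ k) := by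
  obtain ⟨k, hk⟩ := D.hd l l' h
  refine ⟨k, ?_⟩
  rw [G_y, G_y, sub_sub_sub_cancel_right]
  exact hk

theorem G_poly (l : Fin D.P.natDegree) (H : Polynomial (MvPowerSeries (Fin (d + 1)) K)) :
    D.G l (D.p.σ.symm (H : PowerSeries (MvPowerSeries (Fin (d + 1)) K))) =
      ((H.map (D.β : MvPowerSeries (Fin (d + 1)) K →+* WS d K)).map (ram D.hM)).eval (D.ρ l) := by
  have h := eval_coe ((D.G l).comp (D.p.σ.symm : PowerSeries (MvPowerSeries (Fin (d + 1)) K) →ₐ[K]
    MvPowerSeries (Fin (d + 2)) K)) H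
  have h1 : ((((D.G l).comp (D.p.σ.symm : PowerSeries (MvPowerSeries (Fin (d + 1)) K) →ₐ[K]
      MvPowerSeries (Fin (d + 2)) K)) : PowerSeries (MvPowerSeries (Fin (d + 1)) K) →+*
        WS d K).comp PowerSeries.C) =
      (ram D.hM).comp (D.β : MvPowerSeries (Fin (d + 1)) K →+* WS d K) :=
    RingHom.ext fun b => D.G_C l b
  have h2 : ((D.G l).comp (D.p.σ.symm : PowerSeries (MvPowerSeries (Fin (d + 1)) K) →ₐ[K]
      MvPowerSeries (Fin (d + 2)) K)) PowerSeries.X = D.ρ l := D.G_X l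
  rw [h1, h2, ← Polynomial.map_map] at h
  exact h

theorem G_σ (l : Fin D.P.natDegree) {h : MvPowerSeries (Fin (d + 2)) K}
    {H : Polynomial (MvPowerSeries (Fin (d + 1)) K)}
    {V : PowerSeries (MvPowerSeries (Fin (d + 1)) K)}
    (hH : (D.p.σ h).IsWeierstrassFactorization H V) :
    Associated (D.G l h) (((H.map (D.β : MvPowerSeries (Fin (d + 1)) K →+* WS d K)).map
      (ram D.hM)).eval (D.ρ l)) := by
  have h1 : h = D.p.σ.symm (H * V) := by
    rw [← hH.eq_mul, AlgEquiv.symm_apply_apply]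
  rw [h1, map_mul, map_mul, G_poly]
  exact associated_mul_unit_left _ _ ((hH.isUnit.map D.p.σ.symm).map (D.G l))

theorem G_g (l : Fin D.P.natDegree) : D.G l g = 0 := by
  have h1 := D.G_σ l D.hW
  rw [D.hρ, eval_prod_X_sub_C, Finset.prod_eq_zero (Finset.mem_univ l) (sub_self _)] at h1
  exact (associated_zero_iff_eq_zero _).1 h1

/-- The axis meets the curve only at the origin of the base. -/
theorem eval_dvd : PowerSeries.X ∣
    (D.P.map (D.β : MvPowerSeries (Fin (d + 1)) K →+* WS d K)).eval (D.β D.τ) := by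
  obtain ⟨ε, hC, hX, hε⟩ := Pool.Agent.Helper38.ED.exists_eval D.τ D.τm
  have h1 : (D.P : PowerSeries (MvPowerSeries (Fin (d + 1)) K)) ∈ Ideal.map D.p.σ I := by
    obtain ⟨V, hV⟩ := D.hW.isUnit.exists_right_inv
    have h2 : (D.P : PowerSeries (MvPowerSeries (Fin (d + 1)) K)) = D.p.σ g * V := by
      rw [D.hW.eq_mul, mul_assoc, hV, mul_one]
    rw [h2]
    exact Ideal.mul_mem_right _ _ (Ideal.mem_map_of_mem _ D.gI)
  rw [D.hI, Ideal.mem_span_pair] at h1
  obtain ⟨a, b, hab⟩ := h1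
  have h2 : ε (D.P : PowerSeries (MvPowerSeries (Fin (d + 1)) K)) = D.P.eval D.τ := by
    have h3 : ε.comp (Polynomial.coeToPowerSeries.ringHom
        (R := MvPowerSeries (Fin (d + 1)) K)) = Polynomial.evalRingHom D.τ := by
      apply Polynomial.ringHom_ext
      · intro a
        rw [Polynomial.coe_evalRingHom, Polynomial.eval_C]
        change ε ((Polynomial.C a : Polynomial (MvPowerSeries (Fin (d + 1)) K)) :
          PowerSeries (MvPowerSeries (Fin (d + 1)) K)) = a
        rw [Polynomial.coe_C, hC]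
      · rw [Polynomial.coe_evalRingHom, Polynomial.eval_X]
        change ε ((Polynomial.X : Polynomial (MvPowerSeries (Fin (d + 1)) K)) :
          PowerSeries (MvPowerSeries (Fin (d + 1)) K)) = _
        rw [Polynomial.coe_X, hX]
    exact RingHom.congr_fun h3 D.P
  have h3 : D.P.eval D.τ = ε a * D.β.symm PowerSeries.X := by
    rw [← h2, ← hab, map_add, map_mul, map_mul, map_sub, hC, hC, hX, sub_self, mul_zero, add_zero]
  have h4 : (D.P.map (D.β : MvPowerSeries (Fin (d + 1)) K →+* WS d K)).eval (D.β D.τ) =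
      D.β (D.P.eval D.τ) :=
    Polynomial.eval_map_apply (D.β : MvPowerSeries (Fin (d + 1)) K →+* WS d K) D.τ
  rw [h4, h3, map_mul, AlgEquiv.apply_symm_apply]
  exact dvd_mul_left _ _

theorem hI' : I = Ideal.span {D.x, D.y} := by
  have h1 : I = Ideal.comap D.p.σ (Ideal.map D.p.σ I) :=
    (Ideal.comap_map_of_bijective D.p.σ D.p.σ.bijective).symm
  ext h
  constructor
  · intro hh
    have h2 : D.p.σ h ∈ Ideal.map D.p.σ I := Ideal.mem_map_of_mem _ hh
    rw [D.hI, Ideal.mem_span_pair] at h2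
    obtain ⟨a, b, hab⟩ := h2
    rw [Ideal.mem_span_pair]
    refine ⟨D.p.σ.symm a, D.p.σ.symm b, ?_⟩
    rw [x, y, ← map_mul, ← map_mul, ← map_add, hab, AlgEquiv.symm_apply_apply]
  · intro hh
    rw [h1, Ideal.mem_comap, D.hI]
    rw [Ideal.mem_span_pair] at hh ⊢
    obtain ⟨a, b, hab⟩ := hh
    refine ⟨D.p.σ a, D.p.σ b, ?_⟩
    rw [← hab, map_add, map_mul, map_mul, x, y, AlgEquiv.apply_symm_apply,
      AlgEquiv.apply_symm_apply]

theorem x_mem : D.x ∈ IsLocalRing.maximalIdeal (MvPowerSeries (Fin (d + 2)) K) := by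
  rw [← map_algEquiv_mem D.p.σ, x, AlgEquiv.apply_symm_apply, mem_WS,
    PowerSeries.constantCoeff_C, ← mem_maximalIdeal_iff_constantCoeff, map_algEquiv_mem,
    mem_WS, PowerSeries.constantCoeff_X, map_zero]

theorem y_mem : D.y ∈ IsLocalRing.maximalIdeal (MvPowerSeries (Fin (d + 2)) K) := by
  rw [← map_algEquiv_mem D.p.σ, y, AlgEquiv.apply_symm_apply, mem_WS, map_sub,
    PowerSeries.constantCoeff_C, PowerSeries.constantCoeff_X, zero_sub, map_neg, neg_eq_zero]
  exact (mem_maximalIdeal_iff_constantCoeff _).1 D.τm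

theorem t_mem (j : Fin d) :
    D.t j ∈ IsLocalRing.maximalIdeal (MvPowerSeries (Fin (d + 2)) K) := by
  rw [← map_algEquiv_mem D.p.σ, t, AlgEquiv.apply_symm_apply, mem_WS,
    PowerSeries.constantCoeff_C, ← mem_maximalIdeal_iff_constantCoeff, map_algEquiv_mem,
    mem_WS, PowerSeries.constantCoeff_C, constantCoeff_X]

theorem span_gen : Ideal.span (Set.range (Sum.elim ![D.x, D.y] D.t)) =
    IsLocalRing.maximalIdeal (MvPowerSeries (Fin (d + 2)) K) := by
  classical
  set J := Ideal.span (Set.range (Sum.elim ![D.x, D.y] D.t)) with hJ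
  have hx : D.x ∈ J := Ideal.subset_span ⟨Sum.inl 0, rfl⟩
  have hy : D.y ∈ J := Ideal.subset_span ⟨Sum.inl 1, rfl⟩
  have ht : ∀ j, D.t j ∈ J := fun j => Ideal.subset_span ⟨Sum.inr j, rfl⟩
  apply le_antisymm
  · rw [hJ, Ideal.span_le]
    rintro _ ⟨i | j, rfl⟩
    · fin_cases i
      · exact D.x_mem
      · exact D.y_mem
    · exact D.t_mem j
  · intro h hh
    obtain ⟨ε, -, -, hε⟩ := Pool.Agent.Helper38.ED.exists_eval D.τ D.τm
    obtain ⟨q, hq⟩ := hε (D.p.σ h)
    have h1 : ε (D.p.σ h) ∈ IsLocalRing.maximalIdeal (MvPowerSeries (Fin (d + 1)) K) := by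
      rw [mem_maximalIdeal_iff_constantCoeff]
      rw [← map_algEquiv_mem D.p.σ, hq, mem_WS, map_add, map_mul, map_sub,
        PowerSeries.constantCoeff_C, PowerSeries.constantCoeff_C, PowerSeries.constantCoeff_X,
        map_add, map_mul, zero_sub, map_neg, (mem_maximalIdeal_iff_constantCoeff _).1 D.τm,
        neg_zero, zero_mul, add_zero] at hh
      exact hh
    rw [← map_algEquiv_mem D.β] at h1
    obtain ⟨a, c, hac⟩ := mem_gen h1
    have h2 : ε (D.p.σ h) = D.β.symm PowerSeries.X * D.β.symm a +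
        ∑ j, D.β.symm (PowerSeries.C (X j)) * D.β.symm (c j) := by
      apply D.β.injective
      rw [hac, map_add, map_mul, map_sum, AlgEquiv.apply_symm_apply, AlgEquiv.apply_symm_apply]
      congr 1
      refine Finset.sum_congr rfl fun j _ => ?_
      rw [map_mul, AlgEquiv.apply_symm_apply, AlgEquiv.apply_symm_apply]
    have h3 : h = D.x * D.p.σ.symm (PowerSeries.C (D.β.symm a)) +
        (∑ j, D.t j * D.p.σ.symm (PowerSeries.C (D.β.symm (c j)))) + D.y * D.p.σ.symm q := by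
      apply D.p.σ.injective
      have h4 : D.p.σ (∑ j, D.t j * D.p.σ.symm (PowerSeries.C (D.β.symm (c j)))) =
          ∑ j, PowerSeries.C (D.β.symm (PowerSeries.C (X j))) *
            PowerSeries.C (D.β.symm (c j)) := by
        rw [map_sum]
        refine Finset.sum_congr rfl fun j _ => ?_
        rw [map_mul, t, AlgEquiv.apply_symm_apply, AlgEquiv.apply_symm_apply]
      rw [map_add, map_add, map_mul, map_mul, h4, x, y, AlgEquiv.apply_symm_apply,
        AlgEquiv.apply_symm_apply, AlgEquiv.apply_symm_apply, AlgEquiv.apply_symm_apply, hq, h2,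
        map_add, map_mul, map_sum]
      simp only [map_mul]
    rw [h3]
    refine Ideal.add_mem _ (Ideal.add_mem _ (Ideal.mul_mem_right _ _ hx)
      (Ideal.sum_mem _ fun j _ => Ideal.mul_mem_right _ _ (ht j))) (Ideal.mul_mem_right _ _ hy)

theorem li' : LinIndep (Sum.elim ![D.x, D.y] D.t) := by
  classical
  let e : Fin 2 ⊕ Fin d ≃ Fin (d + 2) :=
    finSumFinEquiv.trans (finCongr (Nat.add_comm 2 d))
  let v : Fin (d + 2) → MvPowerSeries (Fin (d + 2)) K := Sum.elim ![D.x, D.y] D.t ∘ e.symm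
  have hr : Set.range v = Set.range (Sum.elim ![D.x, D.y] D.t) := by
    rw [Set.range_comp, e.symm.surjective.range_eq, Set.image_univ]
  obtain ⟨h0, hdet⟩ := linear_of_span_eq v (by rw [hr]; exact D.span_gen)
  have h1 : ∀ i, v (e i) = Sum.elim ![D.x, D.y] D.t i := fun i => by
    change Sum.elim ![D.x, D.y] D.t (e.symm (e i)) = _
    rw [Equiv.symm_apply_apply]
  refine ⟨fun i => ?_, ?_⟩
  · rw [← h1]
    exact h0 (e i)
  · have h2 := (Matrix.linearIndependent_rows_of_det_ne_zero hdet).comp e e.injective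
    have h3 : (fun i => fun j : Fin (d + 2) =>
        coeff (Finsupp.single j 1) (Sum.elim ![D.x, D.y] D.t i)) =
        (fun i => (Matrix.of fun i j => coeff (Finsupp.single j 1) (v i)) i) ∘ e := by
      funext i j
      rw [← h1]
      rfl
    rw [h3]
    exact h2

end Dat0

end Pool.Agent.Helper38.SZ
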