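import Pool.Agent.Helper80.SZ.Tang
import Pool.Agent.Helper38.SZ.Arcs0
import Pool.Agent.Helper85.SB.S
import Pool.Agent.Helper85.SB.N6A

/-! The case of a smooth critical variety: a second generator of the ideal. -/

namespace Pool.Agent.Helper38.SZ

open MvPowerSeries Pool.Agent.Helper38.EQ Pool.Agent.Helper38.GP
open Pool.Agent.Helper85.SB Pool.Agent.Helper85.SZ
open Pool.Agent.Helper80.SP (linIndep_iff linIndep_lift mem_span_of_eq_zero eqv cs cs_eq_zero
  exists_sec_of_root dvd_of_pull_eq_zero mem_span_pair_iff pull_C)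

section

variable {n : ℕ} {K : Type} [Field K]

theorem li_swap_h38 {x y : MvPowerSeries (Fin n) K} (h : LinIndep ![x, y]) :
    LinIndep ![y, x] := by
  have h1 : (![y, x] : Fin 2 → MvPowerSeries (Fin n) K) = ![x, y] ∘ (Equiv.swap (0 : Fin 2) 1) := by
    funext k
    fin_cases k <;> simp
  rw [h1]
  exact ⟨fun k => h.1 _, h.2.comp _ (Equiv.injective _)⟩

theorem gen_aux_h38 {x y g a b : MvPowerSeries (Fin n) K} (h : LinIndep ![x, y])
    (hg : g = a * x + b * y) (ha : IsUnit a) :
    Ideal.span {x, y} = Ideal.span {g, y} ∧ LinIndep ![g, y] := by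
  have hxm : x ∈ IsLocalRing.maximalIdeal (MvPowerSeries (Fin n) K) := ((linIndep_iff _).1 h).1 0
  have hym : y ∈ IsLocalRing.maximalIdeal (MvPowerSeries (Fin n) K) := ((linIndep_iff _).1 h).1 1
  refine ⟨?_, ?_⟩
  · apply le_antisymm
    · rw [Ideal.span_le]
      intro φ hφ
      rcases hφ with rfl | hφ
      · obtain ⟨a', ha'⟩ := ha.exists_left_inv
        rw [SetLike.mem_coe, Ideal.mem_span_pair]
        refine ⟨a', - a' * b, ?_⟩
        rw [hg]
        linear_combination φ * ha'
      · rw [Set.mem_singleton_iff.1 hφ]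
        exact Ideal.subset_span (Or.inr rfl)
    · rw [Ideal.span_le]
      intro φ hφ
      rcases hφ with rfl | hφ
      · rw [SetLike.mem_coe, Ideal.mem_span_pair]
        exact ⟨a, b, hg.symm⟩
      · rw [Set.mem_singleton_iff.1 hφ]
        exact Ideal.subset_span (Or.inr rfl)
  · rw [linIndep_iff]
    have hgm : g ∈ IsLocalRing.maximalIdeal (MvPowerSeries (Fin n) K) := by
      rw [hg]
      exact Ideal.add_mem _ (Ideal.mul_mem_left _ _ hxm) (Ideal.mul_mem_left _ _ hym)
    refine ⟨fun k => by fin_cases k <;> assumption, fun c hc => ?_⟩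
    rw [Fin.sum_univ_two] at hc
    have hc' : C (c 0) * g + C (c 1) * y ∈
        IsLocalRing.maximalIdeal (MvPowerSeries (Fin n) K) ^ 2 := hc
    have hsub : ∀ q : MvPowerSeries (Fin n) K, q - C (constantCoeff q) ∈
        IsLocalRing.maximalIdeal (MvPowerSeries (Fin n) K) := by
      intro q
      rw [mem_maximalIdeal_iff_constantCoeff, map_sub, constantCoeff_C, sub_self]
    have h1 : C (c 0 * constantCoeff a) * x + C (c 0 * constantCoeff b + c 1) * y ∈
        IsLocalRing.maximalIdeal (MvPowerSeries (Fin n) K) ^ 2 := by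
      have h2 : C (c 0) * ((a - C (constantCoeff a)) * x + (b - C (constantCoeff b)) * y) ∈
          IsLocalRing.maximalIdeal (MvPowerSeries (Fin n) K) ^ 2 := by
        apply Ideal.mul_mem_left
        rw [pow_two]
        exact Ideal.add_mem _ (Ideal.mul_mem_mul (hsub a) hxm) (Ideal.mul_mem_mul (hsub b) hym)
      have h3 : C (c 0 * constantCoeff a) * x + C (c 0 * constantCoeff b + c 1) * y =
          (C (c 0) * g + C (c 1) * y) -
            C (c 0) * ((a - C (constantCoeff a)) * x + (b - C (constantCoeff b)) * y) := by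
        rw [hg, map_add, map_mul, map_mul]
        ring
      rw [h3]
      exact Ideal.sub_mem _ hc' h2
    have h4 := ((linIndep_iff _).1 h).2 ![c 0 * constantCoeff a, c 0 * constantCoeff b + c 1] (by
      rw [Fin.sum_univ_two]
      exact h1)
    have h5 : c 0 * constantCoeff a = 0 := congrFun h4 0
    have h6 : c 0 * constantCoeff b + c 1 = 0 := congrFun h4 1
    have h7 : constantCoeff a ≠ 0 := by
      intro h8
      rw [MvPowerSeries.isUnit_iff_constantCoeff, h8] at ha
      exact not_isUnit_zero ha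
    have h8 : c 0 = 0 := (mul_eq_zero.1 h5).resolve_right h7
    rw [h8, zero_mul, zero_add] at h6
    funext k
    fin_cases k
    · exact h8
    · exact h6

/-- A smooth germ that contains the axis is one of two generators. -/
theorem exists_gen_h38 {x y g : MvPowerSeries (Fin n) K} (h : LinIndep ![x, y])
    (hg : g ∈ Ideal.span {x, y}) (hg2 : g ∉ IsLocalRing.maximalIdeal (MvPowerSeries (Fin n) K) ^ 2) :
    ∃ w, Ideal.span {x, y} = Ideal.span {g, w} ∧ LinIndep ![g, w] := by
  have hxm : x ∈ IsLocalRing.maximalIdeal (MvPowerSeries (Fin n) K) := ((linIndep_iff _).1 h).1 0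
  have hym : y ∈ IsLocalRing.maximalIdeal (MvPowerSeries (Fin n) K) := ((linIndep_iff _).1 h).1 1
  obtain ⟨a, b, hab⟩ := Ideal.mem_span_pair.1 hg
  by_cases ha : IsUnit a
  · exact ⟨y, gen_aux_h38 h hab.symm ha⟩
  · by_cases hb : IsUnit b
    · refine ⟨x, ?_⟩
      rw [Set.pair_comm x y]
      exact gen_aux_h38 (li_swap_h38 h) (by rw [← hab, add_comm]) hb
    · exfalso
      apply hg2
      rw [← hab, pow_two]
      exact Ideal.add_mem _ (Ideal.mul_mem_mul ha hxm) (Ideal.mul_mem_mul hb hym)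

end

/-- The ideal of the axis is prime. -/
theorem prime_axis_h38 {d : ℕ} {K : Type} [Field K] {g : MvPowerSeries (Fin (d + 2)) K}
    {I : Ideal (MvPowerSeries (Fin (d + 2)) K)} (A : Arcs0 g I) : I.IsPrime := by
  have key : ∀ f, f ∈ I ↔ cs d K (A.G ⟨0, A.pos⟩ f) = 0 := by
    intro f
    have hx : cs d K (A.G ⟨0, A.pos⟩ A.x) = 0 := by
      rw [cs_eq_zero, A.Gx]
      exact dvd_pow_self _ A.hM
    have hy : cs d K (A.G ⟨0, A.pos⟩ A.y) = 0 := by
      rw [cs_eq_zero]
      exact A.Xy _
    constructor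
    · intro hf
      rw [A.hI, Ideal.mem_span_pair] at hf
      obtain ⟨a, b, rfl⟩ := hf
      rw [map_add, map_mul, map_mul, map_add, map_mul, map_mul, hx, hy, mul_zero, mul_zero,
        add_zero]
    · intro hf
      have h1 := mem_span_of_eq_zero A.li (eqv 2 d) ((cs d K).comp (A.G ⟨0, A.pos⟩))
        (fun k => by
          fin_cases k
          · exact hx
          · exact hy)
        (fun j => by
          change cs d K (A.G _ (A.t j)) = _
          rw [A.Gt]
          change PowerSeries.constantCoeff (PowerSeries.C (X j)) = _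
          rw [PowerSeries.constantCoeff_C]) hf
      have h2 : Set.range ![A.x, A.y] = {A.x, A.y} := by
        rw [Matrix.range_cons, Matrix.range_cons, Matrix.range_empty, Set.union_empty]
        rfl
      rw [h2] at h1
      rw [A.hI]
      exact h1
  refine ⟨?_, fun {a b} hab => ?_⟩
  · intro h
    have h1 := (key 1).1 (by rw [h]; exact Submodule.mem_top)
    rw [map_one, map_one] at h1
    exact one_ne_zero h1
  · rw [key, map_mul, map_mul, mul_eq_zero] at hab
    rw [key, key]
    exact hab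

theorem li_cons_h38 {n : ℕ} {K : Type} [Field K] {a : MvPowerSeries (Fin n) K}
    {h : Fin 2 → MvPowerSeries (Fin n) K}
    (hh : LinIndep (fun o : Option (Fin 2) => o.elim a h)) :
    LinIndep (Fin.cons a h : Fin 3 → MvPowerSeries (Fin n) K) := by
  have h1 : (Fin.cons a h : Fin 3 → MvPowerSeries (Fin n) K) =
      (fun o : Option (Fin 2) => o.elim a h) ∘ (![none, some 0, some 1] : Fin 3 → Option (Fin 2)) := by
    funext k
    fin_cases k <;> rfl
  have hinj : Function.Injective (![none, some 0, some 1] : Fin 3 → Option (Fin 2)) := by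
    intro a b hab
    fin_cases a <;> fin_cases b <;> first | rfl | (exfalso; simp at hab)
  rw [h1]
  exact ⟨fun k => hh.1 _, hh.2.comp _ hinj⟩

/-- The ideals given by the old projection. -/
theorem old_data_h38 {d m : ℕ} {K : Type} [Field K] [IsAlgClosed K] [CharZero K]
    {e : Fin m → MvPowerSeries (Fin (d + 3)) K}
    (he : ∀ i, e i ∈ IsLocalRing.maximalIdeal (MvPowerSeries (Fin (d + 3)) K) ∧
      e i ∉ IsLocalRing.maximalIdeal (MvPowerSeries (Fin (d + 3)) K) ^ 2)
    {I : Ideal (MvPowerSeries (Fin (d + 3)) K)} (hf : ∏ i, e i ∈ I)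
    {z : Fin (d + 2) → MvPowerSeries (Fin (d + 3)) K} (hT : Transversal (∏ i, e i) z)
    (hpar : IsParams (∏ i, e i) z) (hperm : Permissible I z)
    {g : MvPowerSeries (Fin (d + 2)) K} {I' : Ideal (MvPowerSeries (Fin (d + 2)) K)}
    (hc : IsCrit (∏ i, e i) I z g I')
    (hg : g ∉ IsLocalRing.maximalIdeal (MvPowerSeries (Fin (d + 2)) K) ^ 2)
    (hE : Equi (Formal K) 1 (d + 2) g I') :
    ∃ G w : MvPowerSeries (Fin (d + 3)) K, (∃ i j : Fin m, i ≠ j) ∧ (∀ i, e i ∈ I) ∧
      (∀ i, I = Ideal.span {e i, G, w}) ∧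
      (∀ i, LinIndep (Fin.cons (e i) ![G, w] : Fin 3 → MvPowerSeries (Fin (d + 3)) K)) ∧
      (∀ i j, i ≠ j → e j ∈ Ideal.span {e i, G}) ∧
      ∃ k, ∀ i j, i ≠ j → G ^ k ∈ Ideal.span {e i, e j} := by
  classical
  obtain ⟨A⟩ := exists_arcs0 hE
  have hprime := prime_axis_h38 A
  obtain ⟨σ, F, hσ, ⟨U, hU⟩, hred, hI'⟩ := hc
  let p : Proj (d + 2) K := ⟨σ.equiv⟩
  have hz : LinIndep z := hpar.1
  have hp : ∀ i, p.σ (z i) = PowerSeries.C (X i) := hσ
  have ht : ∀ i, p.tr (e i) ≠ 0 := Pool.Agent.Helper80.SP.tr_ne_of_transversal hz p hp he hT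
  have hs : ∀ i, Nonempty (Sec p (e i)) := fun i => exists_sec p _ (he i).1 (ht i)
  let s : ∀ i, Sec p (e i) := fun i => (hs i).some
  have hF : F = ∏ i, (Polynomial.X - Polynomial.C (s i).r) := by
    refine factor_unique s (Associated.refl (∏ i, e i)) (U := U) ?_
    rw [ex_eq]
    exact hU
  have hI'' : I' = p.img I := hI'
  have hItop : I ≠ ⊤ := by
    rintro rfl
    apply hprime.ne_top
    rw [hI'', Ideal.eq_top_iff_one]
    change PowerSeries.C 1 ∈ Ideal.map p.σ ⊤
    rw [Ideal.map_top]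
    exact Submodule.mem_top
  obtain ⟨τ, hτ, hτI⟩ := exists_graph p hz hp hItop hperm
  subst hI''
  have hdisc := Pool.Agent.Helper38.ED.discr_prod fun i => (s i).r
  rw [← hF] at hdisc
  have hred' : Ideal.span {g} = (Ideal.span {F.discr}).radical := hred
  have hgF : g ∣ F.discr := by
    have h1 : F.discr ∈ (Ideal.span {F.discr}).radical :=
      Ideal.le_radical (Ideal.mem_span_singleton_self _)
    rw [← hred'] at h1
    exact Ideal.mem_span_singleton.1 h1
  obtain ⟨k₀, hk₀⟩ : ∃ k, F.discr ∣ g ^ k := by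
    have h1 : g ∈ (Ideal.span {F.discr}).radical := by
      rw [← hred']
      exact Ideal.mem_span_singleton_self _
    obtain ⟨k, hk⟩ := h1
    exact ⟨k, Ideal.mem_span_singleton.1 hk⟩
  have hgm : g ∈ IsLocalRing.maximalIdeal (MvPowerSeries (Fin (d + 2)) K) :=
    IsLocalRing.le_maximalIdeal hprime.ne_top A.gI
  have hgp : Prime g := Pool.Agent.Helper38.ED.prime_of_notMem_sq hgm hg
  have hd1 : ∀ i j, i ≠ j → (s i).r - (s j).r ∣ g ^ k₀ := by
    intro i j hij
    refine Dvd.dvd.trans ?_ (hdisc.symm.dvd.trans hk₀)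
    refine Dvd.dvd.trans ?_ (Finset.dvd_prod_of_mem _ (Finset.mem_univ i))
    exact Finset.dvd_prod_of_mem (fun j => (s i).r - (s j).r)
      (Finset.mem_filter.2 ⟨Finset.mem_univ _, hij.symm⟩)
  have hd2 : ∀ i j, i ≠ j → g ∣ (s i).r - (s j).r := by
    intro i j hij
    obtain ⟨a, -, ha⟩ := (dvd_prime_pow hgp k₀).1 (hd1 i j hij)
    have h1 : (s i).r - (s j).r ∈ IsLocalRing.maximalIdeal (MvPowerSeries (Fin (d + 2)) K) :=
      Ideal.sub_mem _ (s i).r_mem (s j).r_mem
    rcases Nat.eq_zero_or_pos a with rfl | hpos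
    · rw [pow_zero] at ha
      exact absurd (associated_one_iff_isUnit.1 ha) ((IsLocalRing.mem_maximalIdeal _).1 h1)
    · exact (dvd_pow_self _ hpos.ne').trans ha.symm.dvd
  -- some sheet contains `W`, hence all
  obtain ⟨sτ, -⟩ := exists_sec_of_root p hτ
  have hτI' : p.σ.symm (PowerSeries.X - PowerSeries.C τ) ∈ I := by
    rw [← mem_map_algEquiv p.σ, AlgEquiv.apply_symm_apply]
    exact hτI
  obtain ⟨i₀, hi₀⟩ : ∃ i, e i ∈ I := by
    have h1 := sτ.pull_mem_img hτI' hf
    rw [map_prod] at h1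
    obtain ⟨i, -, hi⟩ := (hprime.prod_mem_iff).1 h1
    exact ⟨i, sτ.mem_of_pull_mem hτI' hi⟩
  have heI : ∀ i, e i ∈ I := by
    intro i
    by_cases hi : i₀ = i
    · rw [← hi]
      exact hi₀
    · refine (s i₀).mem_of_pull_mem hi₀ ?_
      exact Ideal.mem_of_dvd _ ((hd2 i₀ i hi).trans ((s i₀).assoc (s i)).symm.dvd) A.gI
  have hpair : ∃ i j : Fin m, i ≠ j := by
    by_contra hcon
    push Not at hcon
    have h1 : IsUnit F.discr := by
      rw [hdisc.isUnit_iff]
      have h2 : ∏ i, ∏ j ∈ Finset.univ.filter (fun j => j ≠ i), ((s i).r - (s j).r) = 1 := by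
        refine Finset.prod_eq_one fun i _ => Finset.prod_eq_one fun j hj => ?_
        exact absurd (hcon j i) (Finset.mem_filter.1 hj).2
      rw [h2]
      exact isUnit_one
    exact hgp.not_isUnit (isUnit_of_dvd_unit hgF h1)
  -- the second generator
  obtain ⟨w', hw1, hw2⟩ := exists_gen_h38 (x := A.x) (y := A.y) (g := g)
    ⟨fun k => by
      have h1 := A.li.1 (Sum.inl k)
      exact h1, by
      have h1 := A.li.2.comp Sum.inl Sum.inl_injective
      exact h1⟩ (A.hI ▸ A.gI) hg
  rw [← A.hI] at hw1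
  have hmem : ∀ b, b ∈ p.img I → p.σ.symm (PowerSeries.C b) ∈ I := by
    intro b hb
    have h1 : PowerSeries.C b ∈ Ideal.map p.σ I := hb
    rw [← mem_map_algEquiv p.σ, AlgEquiv.apply_symm_apply]
    exact h1
  have hw'I : w' ∈ p.img I := by
    rw [hw1]
    exact Ideal.subset_span (Or.inr rfl)
  refine ⟨p.σ.symm (PowerSeries.C g), p.σ.symm (PowerSeries.C w'), hpair, heI, fun i => ?_,
    fun i => ?_, fun i j hij => ?_, k₀, fun i j hij => ?_⟩
  · apply le_antisymm
    · intro h hh
      have h1 := (s i).pull_mem_img (heI i) hh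
      rw [hw1, Ideal.mem_span_pair] at h1
      obtain ⟨a, b, hab⟩ := h1
      have h2 : (s i).pull (h - p.σ.symm (PowerSeries.C a) * p.σ.symm (PowerSeries.C g) -
          p.σ.symm (PowerSeries.C b) * p.σ.symm (PowerSeries.C w')) = 0 := by
        rw [map_sub, map_sub, map_mul, map_mul, pull_C, pull_C, pull_C, pull_C, ← hab]
        ring
      obtain ⟨q, hq⟩ := dvd_of_pull_eq_zero (s i) h2
      have h3 : h = e i * q + p.σ.symm (PowerSeries.C a) * p.σ.symm (PowerSeries.C g) +
          p.σ.symm (PowerSeries.C b) * p.σ.symm (PowerSeries.C w') := by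
        rw [← hq]
        ring
      rw [h3]
      refine Ideal.add_mem _ (Ideal.add_mem _ (Ideal.mul_mem_right _ _ (Ideal.subset_span ?_))
        (Ideal.mul_mem_left _ _ (Ideal.subset_span ?_)))
        (Ideal.mul_mem_left _ _ (Ideal.subset_span ?_))
      · exact Or.inl rfl
      · exact Or.inr (Or.inl rfl)
      · exact Or.inr (Or.inr rfl)
    · rw [Ideal.span_le]
      intro h hh
      rcases hh with rfl | rfl | hh
      · exact heI i
      · exact hmem _ A.gI
      · rw [Set.mem_singleton_iff.1 hh]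
        exact hmem _ hw'I
  · have h1 := linIndep_lift p hw2 (he i).1 (ht i)
    have h2 : (fun o : Option (Fin 2) => o.elim (e i) fun k =>
        p.σ.symm (PowerSeries.C ((![g, w'] : Fin 2 → _) k))) =
        (fun o : Option (Fin 2) => o.elim (e i)
          ![p.σ.symm (PowerSeries.C g), p.σ.symm (PowerSeries.C w')]) := by
      funext o
      rcases o with _ | k
      · rfl
      · fin_cases k <;> rfl
    rw [h2] at h1
    exact li_cons_h38 h1
  · rw [mem_span_pair_iff (s i), pull_C, Ideal.mem_span_singleton]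
    exact (hd2 i j hij).trans ((s i).assoc (s j)).symm.dvd
  · rw [mem_span_pair_iff (s i), map_pow, pull_C, Ideal.mem_span_singleton]
    exact ((s i).assoc (s j)).dvd.trans (hd1 i j hij)

/-- (Z5) The case of a smooth critical variety. -/
theorem equiProj_smooth_h38 {d m : ℕ} {K : Type} [Field K] [IsAlgClosed K] [CharZero K]
    {e : Fin m → MvPowerSeries (Fin (d + 3)) K}
    (he : ∀ i, e i ∈ IsLocalRing.maximalIdeal (MvPowerSeries (Fin (d + 3)) K) ∧
      e i ∉ IsLocalRing.maximalIdeal (MvPowerSeries (Fin (d + 3)) K) ^ 2)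
    {I : Ideal (MvPowerSeries (Fin (d + 3)) K)} (hf : ∏ i, e i ∈ I)
    {z : Fin (d + 2) → MvPowerSeries (Fin (d + 3)) K} (hT : Transversal (∏ i, e i) z)
    (hpar : IsParams (∏ i, e i) z) (hperm : Permissible I z)
    {g : MvPowerSeries (Fin (d + 2)) K} {I' : Ideal (MvPowerSeries (Fin (d + 2)) K)}
    (hc : IsCrit (∏ i, e i) I z g I')
    (hg : g ∉ IsLocalRing.maximalIdeal (MvPowerSeries (Fin (d + 2)) K) ^ 2)
    (hE : Equi (Formal K) 1 (d + 2) g I')
    {z' : Fin (d + 2) → MvPowerSeries (Fin (d + 3)) K} {v : Fin (d + 3) → K}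
    (hz' : LinIndep z') (hv : ∀ i, lin (z' i) v = 0) (hev : ∀ i, lin (e i) v ≠ 0) :
    EquiProj (Formal K) 1 (∏ i, e i) I z' := by
  classical
  obtain ⟨G, w, ⟨i₀, j₀, hij₀⟩, heI, hI, hli, h5, k, h6⟩ :=
    old_data_h38 he hf hT hpar hperm hc hg hE
  obtain ⟨p, hp⟩ := exists_proj_of_linIndep z' hz'
  have hv0 : v ≠ 0 := by
    rintro rfl
    apply hev i₀
    unfold lin
    simp
  have htr : ∀ h, lin h v = 0 ↔ p.tr h = 0 := lin_eq_zero_iff hz' p hp hv hv0
  have ht : ∀ i, p.tr (e i) ≠ 0 := fun i h => hev i ((htr _).2 h)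
  have hzp : z' = fun i => p.σ.symm (PowerSeries.C (X i)) := by
    funext i
    rw [← hp i, AlgEquiv.symm_apply_apply]
  have hs : ∀ i, Nonempty (Sec p (e i)) := fun i => exists_sec p _ (he i).1 (ht i)
  let s : ∀ i, Sec p (e i) := fun i => (hs i).some
  have hgi : ∀ i, LinIndep ![(s i).pull G, (s i).pull w] := by
    intro i
    have h1 := (s i).LI_pull ![G, w] (hli i)
    have h2 : (fun k => (s i).pull ((![G, w] : Fin 2 → _) k)) =
        ![(s i).pull G, (s i).pull w] := by
      funext k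
      fin_cases k <;> rfl
    rw [h2] at h1
    exact h1
  have hgm : ∀ i, (s i).pull G ∈ IsLocalRing.maximalIdeal (R1 (d + 2) K) := fun i =>
    ((linIndep_iff _).1 (hgi i)).1 0
  have hgp : ∀ i, Prime ((s i).pull G) := by
    intro i
    refine Pool.Agent.Helper38.ED.prime_of_notMem_sq (hgm i) fun h => ?_
    have h1 := ((linIndep_iff _).1 (hgi i)).2 ![1, 0] (by
      rw [Fin.sum_univ_two]
      change C 1 * (s i).pull G + C 0 * (s i).pull w ∈ _
      rw [map_one, map_zero, one_mul, zero_mul, add_zero]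
      exact h)
    exact one_ne_zero (congrFun h1 0)
  have hd1 : ∀ i j, i ≠ j → (s i).pull G ∣ (s i).pull (e j) := by
    intro i j hij
    have h1 := h5 i j hij
    rw [mem_span_pair_iff (s i), Ideal.mem_span_singleton] at h1
    exact h1
  have hd2 : ∀ i j, i ≠ j → (s i).pull (e j) ∣ (s i).pull G ^ k := by
    intro i j hij
    have h1 := h6 i j hij
    rw [mem_span_pair_iff (s i), Ideal.mem_span_singleton, map_pow] at h1
    exact h1
  have hsym : ∀ i j, Associated ((s i).pull (e j)) ((s j).pull (e i)) := by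
    intro i j
    refine ((s i).assoc (s j)).trans (Associated.trans ?_ ((s j).assoc (s i)).symm)
    rw [← neg_sub]
    exact Associated.neg_left (Associated.refl _)
  have hdvd : ∀ i j, i ≠ j → (s i).pull G ∣ (s j).pull G := by
    intro i j hij
    have h1 : (s i).pull G ∣ (s j).pull G ^ k :=
      (hd1 i j hij).trans ((hsym i j).dvd.trans (hd2 j i hij.symm))
    exact (hgp i).dvd_of_dvd_pow h1
  have hass : ∀ i, Associated ((s i).pull G) ((s i₀).pull G) := by
    intro i
    by_cases hi : i = i₀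
    · rw [hi]
    · exact associated_of_dvd_dvd (hdvd i i₀ hi) (hdvd i₀ i (Ne.symm hi))
  have hP : IsDisc s ((s i₀).pull G) := by
    refine ⟨fun y N hy => (hgp i₀).dvd_of_dvd_pow hy, fun i j hij => ⟨k, ?_⟩, ⟨1, ?_⟩⟩
    · exact (hd2 i j hij.ne).trans (pow_dvd_pow_of_dvd (hass i).dvd k)
    · rw [pow_one]
      rcases lt_or_gt_of_ne hij₀ with h | h
      · refine (hd1 i₀ j₀ hij₀).trans (Dvd.dvd.trans ?_
          (Finset.dvd_prod_of_mem _ (Finset.mem_univ i₀)))
        exact Finset.dvd_prod_of_mem (fun j => (s i₀).pull (e j))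
          (Finset.mem_filter.2 ⟨Finset.mem_univ _, h⟩)
      · refine ((hd1 i₀ j₀ hij₀).trans (hsym i₀ j₀).dvd).trans (Dvd.dvd.trans ?_
          (Finset.dvd_prod_of_mem _ (Finset.mem_univ j₀)))
        exact Finset.dvd_prod_of_mem (fun j => (s j₀).pull (e j))
          (Finset.mem_filter.2 ⟨Finset.mem_univ _, h⟩)
  obtain ⟨F, U, hFU, hgr⟩ := IsDisc.exists hP (Associated.refl (∏ i, e i))
  rw [ex_eq] at hFU
  have hm : m ≠ 0 := fun h => by
    subst h
    exact i₀.elim0
  rw [hzp]
  refine ⟨isParams_of_tr p (fun i => (he i).1) ht hm (Associated.refl _),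
    permissible_of_tr p (heI i₀) (ht i₀), (s i₀).pull G, p.img I, ?_, ?_⟩
  · exact ⟨⟨p.σ⟩, F, fun i => p.σ.apply_symm_apply _, ⟨U, hFU⟩, hgr, rfl⟩
  · have himg : p.img I = Ideal.span {(s i₀).pull G, (s i₀).pull w} := by
      apply le_antisymm
      · intro b hb
        have h1 : p.σ.symm (PowerSeries.C b) ∈ I := by
          have h1 : PowerSeries.C b ∈ Ideal.map p.σ I := hb
          rw [← mem_map_algEquiv p.σ, AlgEquiv.apply_symm_apply]
          exact h1
        rw [hI i₀] at h1
        have h2 := Ideal.mem_map_of_mem (s i₀).pull h1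
        rw [pull_C, Ideal.map_span] at h2
        refine Ideal.span_le.2 ?_ h2
        rintro x ⟨y, hy, rfl⟩
        rcases hy with rfl | rfl | hy
        · rw [(s i₀).pull_self]
          exact Ideal.zero_mem _
        · exact Ideal.subset_span (Or.inl rfl)
        · rw [Set.mem_singleton_iff.1 hy]
          exact Ideal.subset_span (Or.inr rfl)
      · rw [Ideal.span_le]
        intro b hb
        rcases hb with rfl | hb
        · refine (s i₀).pull_mem_img (heI i₀) ?_
          rw [hI i₀]
          exact Ideal.subset_span (Or.inr (Or.inl rfl))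
        · rw [Set.mem_singleton_iff.1 hb]
          refine (s i₀).pull_mem_img (heI i₀) ?_
          rw [hI i₀]
          exact Ideal.subset_span (Or.inr (Or.inr rfl))
    rw [himg]
    exact Pool.Agent.Helper80.SZ.equi_tang (hgi i₀)

end Pool.Agent.Helper38.SZ
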